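import Mathlib
import Pool.Agent.H.MP_64e6b8_an.A
import Pool.Agent.H.MP_64e6b8_an.B

namespace Pool.Agent.Results.MP_64e6b8_an.Index

open Pool.Agent.H.MP_64e6b8_an Filter Topology

universe u v

/-- `A` is a real C*-algebra inside the complex C*-algebra `B`: a real subalgebra that is closed in
norm and closed under the involution. -/
def IsRealCStar {B : Type u} [NonUnitalCStarAlgebra B] (A : Submodule ℝ B) : Prop :=
  IsClosed (A : Set B) ∧ (∀ a ∈ A, ∀ b ∈ A, a * b ∈ A) ∧ ∀ a ∈ A, star a ∈ A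

/-- The space `E` and every isometric predual of `E` have numerical index `c`. -/
def IndexIs (E : Type u) [NormedAddCommGroup E] [NormedSpace ℝ E] (c : ℝ) : Prop :=
  numIndex E = c ∧ ∀ (X : Type v) [NormedAddCommGroup X] [NormedSpace ℝ X] [CompleteSpace X],
    Nonempty (StrongDual ℝ X ≃ₗᵢ[ℝ] E) → numIndex X = c

section core

variable {B : Type u} [CStarAlgebra B] {E : Type u} [NormedAddCommGroup E] [NormedSpace ℝ E]
  (ι : E →ₗᵢ[ℝ] B)

lemma get_T [CompleteSpace E] (hm : ∀ a b, ∃ c, ι c = ι a * ι b) (hs : ∀ a, ∃ c, ι c = star (ι a))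
    (hne : ∃ a, star (ι a) ≠ ι a) (α : Type v) :
    ∃ (T : E →L[ℝ] E) (C : ℝ), T ≠ 0 ∧ (∀ t : ℝ, |t| ≤ 1 → ‖1 + t • T‖ ≤ 1 + C * t ^ 2) ∧
      ∀ Lim : (α → B) → B → Prop, LimSys (LinearMap.range ι.toLinearMap) Lim → ∀ u : α → E,
        (∀ i, ‖u i‖ ≤ 1) → Lim (fun i => ι (u i)) 0 → Lim (fun i => ι (T (u i))) 0 := by
  letI := CStarAlgebra.spectralOrder B
  haveI := CStarAlgebra.spectralOrderedRing B
  obtain ⟨G, h1, ⟨_, ⟨x0, rfl⟩, h2⟩, ⟨C, hC, h3⟩, h4⟩ := exists_op (α := α)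
    (R := LinearMap.range ι.toLinearMap) ι.isometry.isClosedEmbedding.isClosed_range
    (by rintro _ ⟨a, rfl⟩ _ ⟨b, rfl⟩; exact hm a b) (by rintro _ ⟨a, rfl⟩; exact hs a)
    (by obtain ⟨a, ha⟩ := hne; exact ⟨_, ⟨a, rfl⟩, ha⟩)
  have h5 : ∀ x, ∃ y, ι y = G (ι x) := fun x => h1 _ ⟨x, rfl⟩
  choose s hs using h5
  let T : E →L[ℝ] E := LinearMap.mkContinuous
    ⟨⟨s, fun a b => ι.injective (by simp [hs])⟩, fun c a => ι.injective (by simp [hs])⟩ ‖G‖
    fun x => by
      show ‖s x‖ ≤ _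
      rw [← ι.norm_map, hs, ← ι.norm_map x]; exact G.le_opNorm _
  have hT : ∀ x, ι (T x) = G (ι x) := hs
  refine ⟨T, C, fun h0 => h2 ?_, fun t ht => ?_, fun Lim S u hu h => ?_⟩
  · have := hT x0
    rw [h0] at this
    simpa using this.symm
  · refine ContinuousLinearMap.opNorm_le_bound _ (by positivity) fun x => ?_
    rw [← ι.norm_map, ← ι.norm_map x]
    simpa [hT] using h3 t (ι x) ht
  · simpa only [hT] using h4 Lim S _ (fun i => by rw [ι.norm_map]; exact hu i) h

lemma zero_case [CompleteSpace E] (hm : ∀ a b, ∃ c, ι c = ι a * ι b)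
    (hs : ∀ a, ∃ c, ι c = star (ι a)) (hne : ∃ a, star (ι a) ≠ ι a) : IndexIs.{u, v} E 0 := by
  refine ⟨?_, fun X _ _ _ ⟨Φ⟩ => ?_⟩
  · obtain ⟨T, C, h1, h2, -⟩ := get_T ι hm hs hne Unit
    exact index_zero T h1 C h2
  · obtain ⟨T, C, h1, h2, h3⟩ := get_T ι hm hs hne (Finset X)
    refine predual_zero Φ T h1 C h2 fun l u hu h => ?_
    have S : LimSys (LinearMap.range ι.toLinearMap) fun (v : Finset X → B) b =>
        ∃ (u : Finset X → E) (z : E), (∀ i, ι (u i) = v i) ∧ ι z = b ∧ WL Φ l u z := by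
      constructor
      · rintro _ _ _ _ ⟨u, z, a1, rfl, a2⟩ ⟨w, y, b1, rfl, b2⟩
        exact ⟨fun i => u i + w i, z + y, fun i => by rw [map_add, a1, b1], map_add _ _ _,
          fun x => by simpa using (a2 x).add (b2 x)⟩
      · rintro c _ _ ⟨u, z, a1, rfl, a2⟩
        exact ⟨fun i => c • u i, c • z, fun i => by rw [map_smul, a1], map_smul _ _ _,
          fun x => by simpa using (a2 x).const_mul c⟩
      · rintro _ ⟨z, rfl⟩
        exact ⟨fun _ => z, z, fun _ => rfl, rfl, fun x => tendsto_const_nhds⟩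
      · rintro _ _ ⟨u, z, a1, rfl, -⟩
        exact ⟨⟨z, rfl⟩, fun i => ⟨u i, a1 i⟩⟩
      · rintro _ _ C ⟨u, z, a1, rfl, a2⟩ hC
        rw [ι.norm_map]
        exact a2.lsc Φ fun i => by rw [← ι.norm_map, a1]; exact hC i
      · intro v C hv hC
        choose u hu using hv
        obtain ⟨y, hy⟩ := WL.ex Φ l u (C := C) fun i => by
          rw [← ι.norm_map]; exact (congrArg norm (hu i)).trans_le (hC i)
        exact ⟨ι y, u, y, hu, rfl, hy⟩
    obtain ⟨w, z, a1, a2, a3⟩ := h3 _ S u hu ⟨u, 0, fun _ => rfl, map_zero _, h⟩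
    have e1 : w = fun i => T (u i) := funext fun i => ι.injective (a1 i)
    have e2 : z = 0 := ι.injective (a2.trans (map_zero _).symm)
    rwa [e1, e2] at a3

open scoped IsMulCommutative in
lemma one_case [Nontrivial E] (hm : ∀ a b, ∃ c, ι c = ι a * ι b) (hsa : ∀ a, star (ι a) = ι a) :
    IndexIs.{u, v} E 1 := by
  suffices h : ∀ T : E →L[ℝ] E, 1 + ‖T‖ ≤ max ‖1 + T‖ ‖1 - T‖ from
    ⟨index_one h, fun X _ _ _ ⟨Φ⟩ => predual_one Φ h⟩
  choose mul hmul using hm
  have hc : ∀ a b, ι a * ι b = ι b * ι a := fun a b => by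
    rw [← hmul, ← hsa, hmul, star_mul, hsa, hsa]
  let S : StarSubalgebra ℂ B := (StarAlgebra.adjoin ℂ (Set.range ι)).topologicalClosure
  haveI hS : IsClosed (S : Set B) := (StarAlgebra.adjoin ℂ (Set.range ι)).isClosed_topologicalClosure
  haveI : IsMulCommutative (StarAlgebra.adjoin ℂ (Set.range ι)) :=
    StarAlgebra.isMulCommutative_adjoin ℂ (by rintro _ ⟨a, rfl⟩ _ ⟨b, rfl⟩; exact hc a b)
      (by rintro _ ⟨a, rfl⟩ _ ⟨b, rfl⟩; rw [hsa]; exact hc a b)
  let _ : CommRing S := (StarAlgebra.adjoin ℂ (Set.range ι)).commRingTopologicalClosure mul_comm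
  let _ : CommCStarAlgebra S := { }
  have mem : ∀ a, ι a ∈ S := fun a =>
    StarSubalgebra.le_topologicalClosure _ (StarAlgebra.subset_adjoin ℂ _ ⟨a, rfl⟩)
  let j : E → S := fun a => ⟨ι a, mem a⟩
  have him : ∀ (k : WeakDual.characterSpace ℂ S) a, (k (j a)).im = 0 := by
    intro k a
    have h1 : star (j a) = j a := Subtype.ext (hsa a)
    have h2 := map_star k (j a)
    rw [h1] at h2
    exact Complex.conj_eq_iff_im.1 h2.symm
  have hn : ∀ (k : WeakDual.characterSpace ℂ S) a, |(k (j a)).re| = ‖k (j a)‖ := fun k a =>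
    Complex.abs_re_eq_norm.2 (him k a)
  have hg : ∀ a, ‖WeakDual.gelfandTransform ℂ S (j a)‖ = ‖a‖ := fun a => by
    rw [(gelfandTransform_isometry S).norm_map_of_map_zero (map_zero _)]
    exact ι.norm_map a
  let ρ : WeakDual.characterSpace ℂ S → E →ₗ[ℝ] ℝ := fun k =>
    { toFun := fun a => (k (j a)).re
      map_add' := fun a b => by
        have : j (a + b) = j a + j b := Subtype.ext (map_add ι a b)
        rw [this, map_add, Complex.add_re]
      map_smul' := fun c a => by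
        have : j (c • a) = (c : ℂ) • j a := Subtype.ext (by
          show ι (c • a) = (c : ℂ) • ι a
          rw [map_smul, Complex.coe_smul])
        rw [this, map_smul]; simp }
  have hle : ∀ k a, |ρ k a| ≤ ‖a‖ := fun k a => by
    rw [← hg]
    exact (hn k a).trans_le ((WeakDual.gelfandTransform ℂ S (j a)).norm_coe_le_norm k)
  haveI : Nonempty (WeakDual.characterSpace ℂ S) := by
    by_contra h0
    rw [not_nonempty_iff] at h0
    obtain ⟨a, ha⟩ := exists_ne (0 : E)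
    apply ha
    rw [← norm_le_zero_iff, ← hg]
    exact (ContinuousMap.norm_le _ le_rfl).2 fun k => h0.elim k
  refine adp ρ mul (fun k a b => ?_) hle fun a => ?_
  · have : j (mul a b) = j a * j b := Subtype.ext (hmul a b)
    show (k (j (mul a b))).re = (k (j a)).re * (k (j b)).re
    rw [this, map_mul, Complex.mul_re, him, zero_mul, sub_zero]
  · obtain ⟨k, -, hk⟩ := isCompact_univ.exists_isMaxOn Set.univ_nonempty
      (WeakDual.gelfandTransform ℂ S (j a)).continuous.norm.continuousOn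
    refine ⟨k, le_antisymm (hle k a) ?_⟩
    rw [← hg]
    exact ((ContinuousMap.norm_le _ (norm_nonneg _)).2 fun k' => hk (Set.mem_univ k')).trans
      (hn k a).ge

end core

theorem result {B : Type u} [NonUnitalCStarAlgebra B] (A : Submodule ℝ B) (hA : IsRealCStar A)
    (h0 : A ≠ ⊥) :
    ((∀ a ∈ A, star a = a) → IndexIs.{u, v} A 1) ∧ ((∃ a ∈ A, star a ≠ a) → IndexIs.{u, v} A 0) := by
  let ι : A →ₗᵢ[ℝ] Unitization ℂ B :=
    { toFun := fun a => ((a : B) : Unitization ℂ B)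
      map_add' := fun a b => by simp
      map_smul' := fun c a => by simp
      norm_map' := fun a => Unitization.norm_inr (a : B) }
  have hι : ∀ a : A, ι a = ((a : B) : Unitization ℂ B) := fun _ => rfl
  have hm : ∀ a b, ∃ c, ι c = ι a * ι b := fun a b =>
    ⟨⟨a * b, hA.2.1 _ a.2 _ b.2⟩, by simp [hι]⟩
  haveI : Nontrivial A := Submodule.nontrivial_iff_ne_bot.2 h0
  haveI : CompleteSpace A := hA.1.completeSpace_coe
  refine ⟨fun h => one_case ι hm fun a => ?_, fun ⟨a, ha, h⟩ => zero_case ι hm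
    (fun a => ⟨⟨star a, hA.2.2 _ a.2⟩, by simp [hι]⟩) ⟨⟨a, ha⟩, fun h1 => h ?_⟩⟩
  · rw [hι, ← Unitization.inr_star, h _ a.2]
  · rw [hι, ← Unitization.inr_star] at h1
    exact Unitization.inr_injective h1

end Pool.Agent.Results.MP_64e6b8_an.Index
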